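import Pool.Agent.KS6_18.TGap.Shift2
import Pool.Agent.KS6_18.TGap.CycLim

/-!
# Infinitely many gaps in the set of entropies of hom Markov tree-shifts

For every `d ≥ 2` the entropies are not dense in `I_d`. For every `d ≥ 3` there are infinitely many
gaps in `I_d`, and they accumulate at `log 2`; more generally, they accumulate at `log K` for every
`K ≥ 2` with `K^d < (K+1)^(d-1)`. The right end of each of these gaps is a limit of entropies of
irreducible tree-shifts.
-/

set_option autoImplicit false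

open Filter Topology Set

namespace Pool.Agent.Results.MP_256cd6_an.InfinitelyManyGaps

/-- The nodes of the `d`-tree are the words over `Fin d`; the children of `g` are the words
`g ++ [i]`. The hom Markov tree-shift of `M`: the labelings `t` of the nodes by `Fin k` with
`M (t g) (t (g i)) = 1` for every node `g` and every `i`. -/
def treeShift (d : ℕ) {k : ℕ} (M : Matrix (Fin k) (Fin k) ℕ) : Set (List (Fin d) → Fin k) :=
  {t | ∀ (g : List (Fin d)) (i : Fin d), M (t g) (t (g ++ [i])) = 1}

/-- The set of words of length at most `n`. -/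
def delta (d n : ℕ) : Set (List (Fin d)) := {g | g.length ≤ n}

/-- The number of distinct restrictions of elements of the tree-shift to `delta d n`. -/
noncomputable def patternCount (d : ℕ) {k : ℕ} (M : Matrix (Fin k) (Fin k) ℕ) (n : ℕ) : ℕ :=
  ((fun (t : List (Fin d) → Fin k) (g : delta d n) => t g) '' treeShift d M).ncard

/-- `h` is the entropy of the tree-shift of `M`: the limit of `log p(n) / |Δ_n|`. -/
def IsEntropy (d : ℕ) {k : ℕ} (M : Matrix (Fin k) (Fin k) ℕ) (h : ℝ) : Prop :=
  Tendsto (fun n : ℕ => Real.log (patternCount d M n) / ((delta d n).ncard : ℝ)) atTop (𝓝 h)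

/-- The entries of `M` are `0` and `1`. -/
def Binary {k : ℕ} (M : Matrix (Fin k) (Fin k) ℕ) : Prop := ∀ i j, M i j = 0 ∨ M i j = 1

/-- Irreducible matrices. -/
def Irred {k : ℕ} (M : Matrix (Fin k) (Fin k) ℕ) : Prop := ∀ i j, ∃ m : ℕ, 1 ≤ m ∧ 0 < (M ^ m) i j

/-- The set of entropies of the non-empty hom Markov tree-shifts on the `d`-tree. -/
def entropies (d : ℕ) : Set ℝ :=
  {h | ∃ (k : ℕ) (M : Matrix (Fin k) (Fin k) ℕ), Binary M ∧ (treeShift d M).Nonempty ∧
    IsEntropy d M h}

/-- The subset coming from irreducible matrices. -/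
def entropiesIrr (d : ℕ) : Set ℝ :=
  {h | ∃ (k : ℕ) (M : Matrix (Fin k) (Fin k) ℕ), Binary M ∧ Irred M ∧ (treeShift d M).Nonempty ∧
    IsEntropy d M h}

/-- The interval `I_d`. -/
def interval (d : ℕ) : Set ℝ := Ioo ((d - 1 : ℝ) / d * Real.log 2) ((d - 1 : ℝ) * Real.log 2)

/-- The number of patterns of the full `K`-ary choice: `E_0 = 1`, `E_(n+1) = (K E_n)^d`. -/
def full (d K : ℕ) : ℕ → ℕ
  | 0 => 1
  | n + 1 => (K * full d K n) ^ d

/-- `H_0 = 0`, `H_(n+1) = ((K-1) E_n + H_n)^d`. -/
def second (d K : ℕ) : ℕ → ℕ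
  | 0 => 0
  | n + 1 => ((K - 1) * full d K n + second d K n) ^ d

/-- The left end of the gap. -/
noncomputable def lft (d K n : ℕ) : ℝ :=
  ((d - 1) * Real.log (second d K n) + d * Real.log K) / (d : ℝ) ^ (n + 1)

/-- The right end of the gap. -/
noncomputable def rgt (d K n : ℕ) : ℝ := (1 - 1 / (d : ℝ) ^ n) * Real.log K

theorem full_eq (d c n : ℕ) : full d (c + 1) n = Pool.Agent.KS6_18.TGap.EE d c n := by
  induction n with
  | zero => rfl
  | succ n ih => simp only [full, Pool.Agent.KS6_18.TGap.EE, ih]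

theorem second_eq (d c n : ℕ) : second d (c + 1) n = Pool.Agent.KS6_18.TGap.HH d c n := by
  induction n with
  | zero => rfl
  | succ n ih => simp only [second, Pool.Agent.KS6_18.TGap.HH, ih, full_eq, Nat.add_sub_cancel]

theorem lft_eq (d c n : ℕ) : lft d (c + 1) n =
    ((d - 1) * Real.log (Pool.Agent.KS6_18.TGap.HH d c n) + d * Real.log (c + 1)) /
      (d : ℝ) ^ (n + 1) := by
  rw [lft, second_eq]
  push_cast
  rfl

/-- The explicit family of irreducible entropies. -/
theorem family {d n l K : ℕ} (hd : 2 ≤ d) (hn : 1 ≤ n) (hl : 1 ≤ l) (hK : 1 ≤ K) :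
    (1 - 1 / (d : ℝ) ^ n) / (1 - 1 / (d : ℝ) ^ (n + l)) * Real.log K ∈ entropiesIrr d := by
  obtain ⟨k, L, hL, hfib⟩ := Pool.Agent.KS6_18.TGap.exists_level (n + l)
    (Pool.Agent.KS6_18.TGap.w (n + l) n K)
  have hp : 0 < n + l := by omega
  refine ⟨k, Pool.Agent.KS6_18.TGap.Mc (n + l) L, ?_, ?_, ?_, ?_⟩
  · intro i j
    unfold Pool.Agent.KS6_18.TGap.Mc
    split_ifs
    · exact Or.inr rfl
    · exact Or.inl rfl
  · intro i j
    exact Pool.Agent.KS6_18.TGap.Mc_irred hp hK hL hfib i j
  · obtain ⟨i, _⟩ := Pool.Agent.KS6_18.TGap.exists_lev hK hfib hp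
    obtain ⟨t, ht, _⟩ := Pool.Agent.KS6_18.TGap.occ_all (d := d) hp hK hfib i
    exact ⟨t, ht⟩
  · exact Pool.Agent.KS6_18.TGap.cyc_entropy hd hn hl hK hL hfib

theorem right_mem_closure {d n K : ℕ} (hd : 2 ≤ d) (hn : 1 ≤ n) (hK : 1 ≤ K) :
    rgt d K n ∈ closure (entropiesIrr d) := by
  have hd' : (2 : ℝ) ≤ d := by exact_mod_cast hd
  have h1 : Tendsto (fun l : ℕ => (1 - 1 / (d : ℝ) ^ n) / (1 - 1 / (d : ℝ) ^ (n + (l + 1))) *
      Real.log K) atTop (𝓝 ((1 - 1 / (d : ℝ) ^ n) / (1 - 0) * Real.log K)) := by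
    have h2 : Tendsto (fun l : ℕ => 1 / (d : ℝ) ^ (n + (l + 1))) atTop (𝓝 0) := by
      refine Tendsto.div_atTop tendsto_const_nhds ?_
      have := (tendsto_pow_atTop_atTop_of_one_lt (show (1:ℝ) < d by linarith)).comp
        (tendsto_add_atTop_nat (n + 1))
      refine this.congr fun l => ?_
      simp only [Function.comp_def]
      rw [show l + (n + 1) = n + (l + 1) by ring]
    exact (tendsto_const_nhds.div (h2.const_sub 1) (by norm_num)).mul_const _
  rw [sub_zero, div_one] at h1
  exact mem_closure_of_tendsto h1 (Eventually.of_forall fun l =>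
    family hd hn (Nat.succ_le_succ (Nat.zero_le l)) hK)

/-- Bernoulli: the condition holds for `K (K-1) + 1 < d`. -/
theorem cond_of_lt {d K : ℕ} (hK : 2 ≤ K) (h : K * (K - 1) + 1 < d) :
    K ^ d < (K + 1) ^ (d - 1) := by
  obtain ⟨e, rfl⟩ : ∃ e, d = e + 1 := ⟨d - 1, by omega⟩
  simp only [Nat.add_sub_cancel]
  have hKr : (0 : ℝ) < K := by exact_mod_cast (by omega : 0 < K)
  have h1 := one_add_mul_le_pow (a := 1 / (K : ℝ)) (by
    have : 0 < 1 / (K : ℝ) := by positivity
    linarith) e
  have h2 : (K : ℝ) < 1 + e * (1 / K) := by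
    have h3 : K * (K - 1) + 1 ≤ e := by omega
    have h4 : (K : ℝ) * (K - 1) + 1 ≤ e := by
      have : ((K * (K - 1) + 1 : ℕ) : ℝ) ≤ e := by exact_mod_cast h3
      rw [Nat.cast_add, Nat.cast_mul, Nat.cast_sub (by omega)] at this
      simpa using this
    have h5 : (K : ℝ) - 1 < e * (1 / K) := by
      rw [mul_one_div, lt_div_iff₀ hKr]
      linarith
    linarith
  have h3 : (K : ℝ) < (1 + 1 / K) ^ e := h2.trans_le h1
  have h4 : (K : ℝ) * K ^ e < (K + 1) ^ e := by
    have h5 : (1 + 1 / (K : ℝ)) ^ e = (K + 1) ^ e / K ^ e := by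
      rw [← div_pow]
      congr 1
      field_simp
    rw [h5, lt_div_iff₀ (by positivity)] at h3
    exact h3
  have h5 : ((K ^ (e + 1) : ℕ) : ℝ) < (((K + 1) ^ e : ℕ) : ℝ) := by
    push_cast
    rw [pow_succ, mul_comm]
    exact h4
  exact_mod_cast h5

theorem cond_two {d : ℕ} (hd : 3 ≤ d) : 2 ^ d < 3 ^ (d - 1) := by
  obtain ⟨e, rfl⟩ : ∃ e, d = e + 3 := ⟨d - 3, by omega⟩
  rw [show e + 3 - 1 = e + 2 by omega]
  induction e with
  | zero => norm_num
  | succ e ih =>
    have := ih (by omega)
    rw [show e + 1 + 3 = e + 3 + 1 by ring, show e + 1 + 2 = e + 2 + 1 by ring, pow_succ, pow_succ 3]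
    omega

/-- **Gaps.** -/
theorem result (d : ℕ) (hd : 2 ≤ d) :
    -- for every `d ≥ 2` neither set is dense in `I_d`; an explicit gap
    (¬ interval d ⊆ closure (entropies d) ∧ ¬ interval d ⊆ closure (entropiesIrr d) ∧
      Disjoint (Ioo ((1 - 26 / 25 / (d : ℝ) ^ 2) * Real.log 2)
        ((1 - 1 / (d : ℝ) ^ 2) * Real.log 2)) (entropies d)) ∧
    -- for every `K ≥ 2` with `K^d < (K+1)^(d-1)` a sequence of gaps
    (∀ K : ℕ, 2 ≤ K → K ^ d < (K + 1) ^ (d - 1) →
      (∀ n : ℕ, 1 ≤ n →
        lft d K n ≤ Real.log K - (d - 1) / (d : ℝ) ^ n * Real.log (1 + 1 / K) ∧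
        Real.log K - (d - 1) / (d : ℝ) ^ n * Real.log (1 + 1 / K) < rgt d K n ∧
        rgt d K n < lft d K (n + 1) ∧
        (3 ≤ K ∨ 2 ≤ n → Ioo (lft d K n) (rgt d K n) ⊆ interval d) ∧
        Disjoint (Ioo (lft d K n) (rgt d K n)) (entropies d) ∧
        rgt d K n ∈ closure (entropiesIrr d)) ∧
      Tendsto (lft d K) atTop (𝓝 (Real.log K)) ∧ Tendsto (rgt d K) atTop (𝓝 (Real.log K))) ∧
    -- the condition holds for `K = 2` and `d ≥ 3`, and for `2 ≤ K`, `K (K - 1) + 1 < d`
    (3 ≤ d → 2 ^ d < 3 ^ (d - 1)) ∧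
    (∀ K : ℕ, 2 ≤ K → K * (K - 1) + 1 < d → K ^ d < (K + 1) ^ (d - 1)) ∧
    -- a family of irreducible entropies
    (∀ n l K : ℕ, 1 ≤ n → 1 ≤ l → 1 ≤ K →
      (1 - 1 / (d : ℝ) ^ n) / (1 - 1 / (d : ℝ) ^ (n + l)) * Real.log K ∈ entropiesIrr d) := by
  have hd' : (2 : ℝ) ≤ d := by exact_mod_cast hd
  have hlog : 0 < Real.log 2 := Real.log_pos (by norm_num)
  have hd0 : (d : ℝ) ≠ 0 := by linarith
  refine ⟨?_, ?_, cond_two, fun K hK h => cond_of_lt hK h, fun n l K hn hl hK => family hd hn hl hK⟩
  · have h1 : (d - 1 : ℝ) / d * Real.log 2 < (1 - 26 / 25 / (d : ℝ) ^ 2) * Real.log 2 := by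
      apply mul_lt_mul_of_pos_right _ hlog
      have h2 : (d - 1 : ℝ) / d = 1 - 1 / d := by field_simp
      have h3 : (26 : ℝ) / 25 / (d : ℝ) ^ 2 < 1 / d := by
        rw [div_lt_div_iff₀ (by positivity) (by positivity)]
        nlinarith
      rw [h2]
      linarith
    have h2 : (1 - 26 / 25 / (d : ℝ) ^ 2) * Real.log 2 < (1 - 1 / (d : ℝ) ^ 2) * Real.log 2 := by
      apply mul_lt_mul_of_pos_right _ hlog
      have : 1 / (d : ℝ) ^ 2 < 26 / 25 / (d : ℝ) ^ 2 := by gcongr; norm_num
      linarith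
    have h3 : (1 - 1 / (d : ℝ) ^ 2) * Real.log 2 < (d - 1 : ℝ) * Real.log 2 := by
      apply mul_lt_mul_of_pos_right _ hlog
      have : 0 < 1 / (d : ℝ) ^ 2 := by positivity
      linarith
    have hempty : Disjoint (Ioo ((1 - 26 / 25 / (d : ℝ) ^ 2) * Real.log 2)
        ((1 - 1 / (d : ℝ) ^ 2) * Real.log 2)) (entropies d) := by
      rw [Set.disjoint_left]
      rintro h ⟨ha, hb⟩ ⟨k, M, _, hne, hent⟩
      rcases Pool.Agent.KS6_18.TGap.entropy_gap (M := M) hd hne hent with h4 | h4
      · exact lt_asymm h4 ha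
      · exact absurd hb (not_lt.2 h4)
    have hnot : ∀ A : Set ℝ, A ⊆ entropies d → ¬ interval d ⊆ closure A := by
      intro A hA hsub
      obtain ⟨x, hx1, hx2⟩ := exists_between h2
      have hx : x ∈ closure A := hsub ⟨h1.trans hx1, hx2.trans h3⟩
      rw [mem_closure_iff] at hx
      obtain ⟨y, hy1, hy2⟩ := hx _ isOpen_Ioo ⟨hx1, hx2⟩
      exact Set.disjoint_left.1 hempty hy1 (hA hy2)
    refine ⟨hnot _ le_rfl, hnot _ ?_, hempty⟩
    rintro h ⟨k, M, hM, _, hne, hent⟩
    exact ⟨k, M, hM, hne, hent⟩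
  · intro K hK hcond
    obtain ⟨c, rfl⟩ : ∃ c, K = c + 1 := ⟨K - 1, by omega⟩
    have hc1 : 1 ≤ c := by omega
    have hcr : (1 : ℝ) ≤ c := by exact_mod_cast hc1
    have hlogc : 0 ≤ Real.log c := Real.log_nonneg hcr
    have hlogK : 0 < Real.log ((c : ℝ) + 1) := Real.log_pos (by linarith)
    have hl1 : Real.log (1 + 1 / ((c + 1 : ℕ) : ℝ)) = Real.log (c + 2) - Real.log (c + 1) := by
      rw [← Real.log_div (by positivity) (by positivity)]
      congr 1
      push_cast
      field_simp
      ring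
    have hcst : Real.log ((c + 1 : ℕ) : ℝ) = Real.log (c + 1) := by push_cast; rfl
    -- the real form of the condition
    have hcondr : (d : ℝ) * Real.log (c + 1) < (d - 1) * Real.log (c + 2) := by
      have h6 : ((c : ℝ) + 1) ^ d < ((c : ℝ) + 2) ^ (d - 1) := by exact_mod_cast hcond
      have := Real.log_lt_log (by positivity) h6
      rw [Real.log_pow, Real.log_pow, Nat.cast_sub (by omega)] at this
      simpa using this
    have hlow : ∀ n : ℕ, 1 ≤ n → Real.log (c + 1) - (d - 1) / (d : ℝ) ^ n * (Real.log (c + 1) - Real.log c) ≤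
        lft d (c + 1) n := by
      intro n hn
      rw [lft_eq]
      exact Pool.Agent.KS6_18.TGap.le_left hd hc1 hn
    have hupp : ∀ n : ℕ, 1 ≤ n → lft d (c + 1) n ≤
        Real.log (c + 1) - (d - 1) / (d : ℝ) ^ n * (Real.log (c + 2) - Real.log (c + 1)) := by
      intro n hn
      rw [lft_eq]
      exact Pool.Agent.KS6_18.TGap.left_le hd hc1 hcond.le hn
    have hmid : ∀ n : ℕ, Real.log (c + 1) - (d - 1) / (d : ℝ) ^ n * (Real.log (c + 2) - Real.log (c + 1)) <
        rgt d (c + 1) n := by
      intro n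
      rw [rgt, hcst]
      have hdn : (0 : ℝ) < (d : ℝ) ^ n := by positivity
      have h1 : Real.log (c + 1) - (d - 1) / (d : ℝ) ^ n * (Real.log (c + 2) - Real.log (c + 1)) =
          Real.log (c + 1) - ((d - 1) * (Real.log (c + 2) - Real.log (c + 1))) / (d : ℝ) ^ n := by
        ring
      have h2 : (1 - 1 / (d : ℝ) ^ n) * Real.log (c + 1) =
          Real.log (c + 1) - Real.log (c + 1) / (d : ℝ) ^ n := by ring
      rw [h1, h2]
      have h3 : Real.log ((c : ℝ) + 1) / (d : ℝ) ^ n <
          ((d - 1) * (Real.log (c + 2) - Real.log (c + 1))) / (d : ℝ) ^ n := by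
        apply div_lt_div_of_pos_right _ hdn
        linarith
      linarith
    have hrK : ∀ n : ℕ, rgt d (c + 1) n < Real.log (c + 1) := by
      intro n
      rw [rgt, hcst]
      have : 0 < 1 / (d : ℝ) ^ n := by positivity
      nlinarith
    have hpow0 : Tendsto (fun n : ℕ => 1 / (d : ℝ) ^ n) atTop (𝓝 0) := by
      refine Tendsto.div_atTop tendsto_const_nhds ?_
      exact tendsto_pow_atTop_atTop_of_one_lt (show (1:ℝ) < d by linarith)
    refine ⟨?_, ?_, ?_⟩
    · intro n hn
      rw [hl1, hcst]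
      refine ⟨hupp n hn, hmid n, ?_, ?_, ?_, ?_⟩
      · refine lt_of_lt_of_le ?_ (hlow (n + 1) (by omega))
        rw [rgt, hcst]
        have hdn : (0 : ℝ) < (d : ℝ) ^ (n + 1) := by positivity
        have h1 : (1 - 1 / (d : ℝ) ^ n) * Real.log (c + 1) =
            Real.log (c + 1) - d * Real.log (c + 1) / (d : ℝ) ^ (n + 1) := by
          rw [pow_succ]
          field_simp
        have h2 : Real.log (c + 1) - (d - 1) / (d : ℝ) ^ (n + 1) * (Real.log (c + 1) - Real.log c) =
            Real.log (c + 1) - ((d - 1) * (Real.log (c + 1) - Real.log c)) / (d : ℝ) ^ (n + 1) := by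
          ring
        rw [h1, h2]
        have h3 : ((d - 1) * (Real.log (c + 1) - Real.log c)) / (d : ℝ) ^ (n + 1) <
            d * Real.log (c + 1) / (d : ℝ) ^ (n + 1) := by
          apply div_lt_div_of_pos_right _ hdn
          nlinarith
        linarith
      · intro hKn x hx
        have hlo := hlow n hn
        constructor
        · refine lt_of_le_of_lt (le_trans ?_ hlo) hx.1
          have h2 : (d - 1 : ℝ) / d = 1 - 1 / d := by field_simp
          have hlc2 : Real.log 2 ≤ Real.log ((c : ℝ) + 1) :=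
            Real.log_le_log (by norm_num) (by linarith)
          rcases hKn with h3 | h3
          · -- `K ≥ 3`
            have hc2 : (2 : ℝ) ≤ c := by exact_mod_cast (by omega : 2 ≤ c)
            have h4 : (d - 1) / (d : ℝ) ^ n * (Real.log (c + 1) - Real.log c) ≤
                (d - 1) / d * (Real.log (c + 1) - Real.log c) := by
              apply mul_le_mul_of_nonneg_right _ (by
                have := Real.log_le_log (show (0 : ℝ) < c by linarith) (show (c : ℝ) ≤ c + 1 by linarith)
                linarith)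
              apply div_le_div_of_nonneg_left (by linarith) (by linarith)
              calc (d : ℝ) = d ^ 1 := (pow_one _).symm
                _ ≤ d ^ n := pow_le_pow_right₀ (by linarith) hn
            have h5 : Real.log ((c : ℝ) + 1) - Real.log c + Real.log 2 ≤ Real.log (c + 1) := by
              have : Real.log 2 ≤ Real.log c := Real.log_le_log (by norm_num) hc2
              linarith
            have h6 : (0 : ℝ) ≤ 1 / d := by positivity
            have h7 : (d - 1 : ℝ) / d * (Real.log ((c : ℝ) + 1) - Real.log c + Real.log 2) ≤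
                (d - 1 : ℝ) / d * Real.log (c + 1) :=
              mul_le_mul_of_nonneg_left h5 (div_nonneg (by linarith) (by linarith))
            have h8 : (d - 1 : ℝ) / d * Real.log (c + 1) ≤ Real.log (c + 1) := by
              rw [h2]
              nlinarith
            linarith
          · -- `n ≥ 2`
            have h4 : (d - 1) / (d : ℝ) ^ n * (Real.log (c + 1) - Real.log c) ≤
                1 / d * Real.log (c + 1) := by
              have h5 : (d - 1) / (d : ℝ) ^ n ≤ 1 / d := by
                rw [div_le_div_iff₀ (by positivity) (by linarith), one_mul]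
                calc (d - 1 : ℝ) * d ≤ d ^ 2 := by nlinarith
                  _ ≤ d ^ n := pow_le_pow_right₀ (by linarith) h3
              have h6 : Real.log ((c : ℝ) + 1) - Real.log c ≤ Real.log (c + 1) := by linarith
              have h7 : 0 ≤ Real.log ((c : ℝ) + 1) - Real.log c := by
                have := Real.log_le_log (show (0 : ℝ) < c by linarith) (show (c : ℝ) ≤ c + 1 by linarith)
                linarith
              exact mul_le_mul h5 h6 h7 (by positivity)
            have h5 : (d - 1 : ℝ) / d * Real.log 2 ≤ (d - 1) / d * Real.log (c + 1) :=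
              mul_le_mul_of_nonneg_left hlc2 (div_nonneg (by linarith) (by linarith))
            rw [h2] at h5 ⊢
            linarith
        · refine hx.2.trans ((hrK n).trans ?_)
          -- `K < 2^(d-1)`
          have h1 : c + 1 < 2 ^ (d - 1) := by
            obtain ⟨e, rfl⟩ : ∃ e, d = e + 1 := ⟨d - 1, by omega⟩
            simp only [Nat.add_sub_cancel] at hcond ⊢
            have h2 : (c + 1 + 1) ^ e ≤ (2 * (c + 1)) ^ e := Nat.pow_le_pow_left (by omega) e
            rw [mul_pow] at h2
            have h3 : (c + 1) * (c + 1) ^ e < 2 ^ e * (c + 1) ^ e := by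
              calc (c + 1) * (c + 1) ^ e = (c + 1) ^ (e + 1) := by ring
                _ < _ := hcond.trans_le h2
            exact Nat.lt_of_mul_lt_mul_right h3
          have h2 : ((c : ℝ) + 1) < (2 : ℝ) ^ (d - 1) := by exact_mod_cast h1
          have := Real.log_lt_log (by linarith) h2
          rw [Real.log_pow, Nat.cast_sub (by omega)] at this
          simpa using this
      · rw [Set.disjoint_left]
        rintro h ⟨ha, hb⟩ ⟨k, M, _, hne, hent⟩
        rcases Pool.Agent.KS6_18.TGap.entropy_gap_many (M := M) hd hne hent hcond.le hn with h4 | h4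
        · rw [← lft_eq] at h4
          exact absurd ha (not_lt.2 h4)
        · rw [← hcst] at h4
          exact absurd hb (not_lt.2 h4)
      · exact right_mem_closure hd hn (by omega)
    · rw [hcst]
      have hg : Tendsto (fun n : ℕ => Real.log ((c : ℝ) + 1) - (d - 1) / (d : ℝ) ^ n *
          (Real.log (c + 1) - Real.log c)) atTop (𝓝 (Real.log (c + 1))) := by
        have : Tendsto (fun n : ℕ => Real.log ((c : ℝ) + 1) - ((d - 1) * (1 / (d : ℝ) ^ n)) *
            (Real.log (c + 1) - Real.log c)) atTop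
            (𝓝 (Real.log (c + 1) - ((d - 1) * 0) * (Real.log (c + 1) - Real.log c))) :=
          ((hpow0.const_mul _).mul_const _).const_sub _
        simp only [mul_zero, zero_mul, sub_zero] at this
        refine this.congr fun n => ?_
        rw [mul_one_div]
      refine tendsto_of_tendsto_of_tendsto_of_le_of_le' hg tendsto_const_nhds ?_ ?_
      · filter_upwards [eventually_ge_atTop 1] with n hn using hlow n hn
      · filter_upwards [eventually_ge_atTop 1] with n hn
        exact ((hupp n hn).trans (hmid n).le).trans (hrK n).le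
    · have : Tendsto (fun n : ℕ => (1 - 1 / (d : ℝ) ^ n) * Real.log ((c + 1 : ℕ) : ℝ)) atTop
          (𝓝 ((1 - 0) * Real.log ((c + 1 : ℕ) : ℝ))) := (hpow0.const_sub 1).mul_const _
      rw [sub_zero, one_mul] at this
      exact this

end Pool.Agent.Results.MP_256cd6_an.InfinitelyManyGaps
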